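import Pool.Agent.H26.THC.SP
import Pool.Agent.H26.GLA.WF
import Pool.Agent.H63.HK.DU

/-!
# Tools for the transfer by Gauss sums
-/

set_option autoImplicit false

open NumberField NumberField.InfinitePlace NumberField.Units
  NumberField.Units.dirichletUnitTheorem MeasureTheory Set Filter Complex
open scoped nonZeroDivisors ENNReal

namespace Pool.Agent.H26.THC

open Pool.Agent.H28.RC hiding cf gS conj_sg
open Pool.Agent.H25.HK Pool.Agent.H23.LB Pool.Agent.H29.TC Pool.Agent.H26.GLA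

/-- representatives -/
theorem exists_rep (R : Type) [CommRing R] [Finite R] (G : Ideal R) :
    ∃ X : Finset R, ∀ x : R, ∃! r, r ∈ X ∧ x - r ∈ G := by
  classical
  have : Finite (R ⧸ G) := Finite.of_surjective (Ideal.Quotient.mk G) Ideal.Quotient.mk_surjective
  have : Fintype (R ⧸ G) := Fintype.ofFinite _
  refine ⟨Finset.univ.image (fun q : R ⧸ G => q.out), fun x => ?_⟩
  have hout : ∀ q : R ⧸ G, Ideal.Quotient.mk G q.out = q := fun q => Quotient.out_eq q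
  refine ⟨(Ideal.Quotient.mk G x).out, ⟨Finset.mem_image_of_mem _ (Finset.mem_univ _), ?_⟩, ?_⟩
  · rw [← Ideal.Quotient.eq]
    exact (hout _).symm
  · rintro r ⟨h1, h2⟩
    obtain ⟨q, _, rfl⟩ := Finset.mem_image.mp h1
    have h3 := Ideal.Quotient.eq.mpr h2
    rw [hout] at h3
    rw [h3]

section

variable {K : Type} [Field K] [NumberField K]

theorem mem_l_mul {l g' : Ideal (𝓞 K)} (h : l ⊔ g' = ⊤) (x : 𝓞 K) :
    x ∈ l * g' ↔ x ∈ l ∧ x ∈ g' := by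
  rw [Ideal.mul_eq_inf_of_isCoprime (Ideal.isCoprime_iff_sup_eq.mpr h)]
  exact Submodule.mem_inf

theorem mul_mono_FI {I J : Ideal (𝓞 K)} (h : I ≤ J) (M : FI K) : (I : FI K) * M ≤ (J : FI K) * M :=
  mul_le_mul_left ((FractionalIdeal.coeIdeal_le_coeIdeal K).mpr h) M

theorem key_iff {l f1 g' : Ideal (𝓞 K)} (hcop : l ⊔ f1 = ⊤) (hg : f1 ≤ g') {M : FI K} {x₀ : K}
    (hG : Gn (l * f1) M x₀) {x x' : K} {a a' : 𝓞 K}
    (ha : x - (a : K) * x₀ ∈ ((l * f1 : Ideal (𝓞 K)) : FI K) * M)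
    (ha' : x' - (a' : K) * x₀ ∈ ((l * f1 : Ideal (𝓞 K)) : FI K) * M) :
    x - x' ∈ ((l * g' : Ideal (𝓞 K)) : FI K) * M ↔ a - a' ∈ l ∧ a - a' ∈ g' := by
  have hle : l * f1 ≤ l * g' := Ideal.mul_mono_right hg
  have hcop' : l ⊔ g' = ⊤ := top_le_iff.mp (hcop ▸ sup_le_sup_left hg l)
  rw [← mem_l_mul hcop', ← hG.iff (a - a') (l * g') hle]
  have h1 : ((a - a' : 𝓞 K) : K) = (a : K) - (a' : K) := map_sub (algebraMap (𝓞 K) K) a a'
  have hb := mul_mono_FI hle M ha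
  have hb' := mul_mono_FI hle M ha'
  constructor
  · intro h
    have h2 : ((a - a' : 𝓞 K) : K) * x₀ =
        (x - x') - (x - (a : K) * x₀) + (x' - (a' : K) * x₀) := by rw [h1]; ring
    rw [h2]
    exact fadd K _ (fsub K _ h hb) hb'
  · intro h
    have h2 : x - x' = ((a - a' : 𝓞 K) : K) * x₀ +
        (x - (a : K) * x₀) - (x' - (a' : K) * x₀) := by rw [h1]; ring
    rw [h2]
    exact fsub K _ (fadd K _ h hb) hb'

theorem crt {l f1 : Ideal (𝓞 K)} (hcop : l ⊔ f1 = ⊤) (a b : 𝓞 K) :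
    ∃ c : 𝓞 K, c - a ∈ l ∧ c - b ∈ f1 := by
  have h1 : (1 : 𝓞 K) ∈ l ⊔ f1 := by rw [hcop]; trivial
  obtain ⟨u, hu, v, hv, huv⟩ := Submodule.mem_sup.mp h1
  refine ⟨v * a + u * b, ?_, ?_⟩
  · have h2 : v * a + u * b - a = u * (b - a) := by
      have : v = 1 - u := by rw [← huv]; ring
      rw [this]; ring
    rw [h2]
    exact Ideal.mul_mem_right _ _ hu
  · have h2 : v * a + u * b - b = v * (a - b) := by
      have : u = 1 - v := by rw [← huv]; ring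
      rw [this]; ring
    rw [h2]
    exact Ideal.mul_mem_right _ _ hv

theorem smul_mem_FI (M : FI K) (a : 𝓞 K) {x : K} (hx : x ∈ M) : (a : K) * x ∈ M := by
  have h3 : (a : K) * x = a • x := by rw [Algebra.smul_def]
  rw [h3]
  exact (M : Submodule (𝓞 K) K).smul_mem a hx

/-- sums over representatives -/
theorem sum_rep {V : Type} [AddCommMonoid V] {l f1 g' : Ideal (𝓞 K)} (hcop : l ⊔ f1 = ⊤)
    (hg : f1 ≤ g') {M : FI K} {x₀ : K} (hG : Gn (l * f1) M x₀) (X' : Finset K)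
    (hX' : Rep K (l * g') M X') [Fintype (𝓞 K ⧸ l)] (XB : Finset (𝓞 K ⧸ f1))
    (hXB : ∀ x : 𝓞 K ⧸ f1, ∃! r, r ∈ XB ∧ x - r ∈ g'.map (Ideal.Quotient.mk f1)) (α : K → 𝓞 K)
    (hα : ∀ x ∈ M, x - (α x : K) * x₀ ∈ ((l * f1 : Ideal (𝓞 K)) : FI K) * M)
    (Ψ : 𝓞 K ⧸ l → 𝓞 K ⧸ f1 → V)
    (hΨ : ∀ a b b', b - b' ∈ g'.map (Ideal.Quotient.mk f1) → Ψ a b = Ψ a b') :
    ∑ r ∈ X', Ψ (Ideal.Quotient.mk l (α r)) (Ideal.Quotient.mk f1 (α r)) =
      ∑ a, ∑ r' ∈ XB, Ψ a r' := by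
  classical
  rw [← Finset.sum_product']
  choose ρ hρ1 hρ2 using hXB
  have hmk : ∀ a b : 𝓞 K, Ideal.Quotient.mk f1 a - Ideal.Quotient.mk f1 b ∈
      g'.map (Ideal.Quotient.mk f1) ↔ a - b ∈ g' := by
    intro a b
    rw [← map_sub]
    exact Ideal.mem_quotient_iff_mem hg
  refine Finset.sum_bij (fun r _ => (Ideal.Quotient.mk l (α r), ρ (Ideal.Quotient.mk f1 (α r))))
    ?_ ?_ ?_ ?_
  · intro r _
    exact Finset.mem_product.mpr ⟨Finset.mem_univ _, (hρ1 _).1⟩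
  · intro r hr r' hr' h
    have h1 : Ideal.Quotient.mk l (α r) = Ideal.Quotient.mk l (α r') := congrArg Prod.fst h
    have h2 : ρ (Ideal.Quotient.mk f1 (α r)) = ρ (Ideal.Quotient.mk f1 (α r')) :=
      congrArg Prod.snd h
    have h3 : α r - α r' ∈ l := Ideal.Quotient.eq.mp h1
    have h4 : α r - α r' ∈ g' := by
      rw [← hmk]
      have e1 := (hρ1 (Ideal.Quotient.mk f1 (α r))).2
      have e2 := (hρ1 (Ideal.Quotient.mk f1 (α r'))).2
      rw [h2] at e1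
      have e3 : Ideal.Quotient.mk f1 (α r) - Ideal.Quotient.mk f1 (α r') =
          (Ideal.Quotient.mk f1 (α r) - ρ (Ideal.Quotient.mk f1 (α r'))) -
          (Ideal.Quotient.mk f1 (α r') - ρ (Ideal.Quotient.mk f1 (α r'))) := by ring
      rw [e3]
      exact sub_mem e1 e2
    have hrM := hX'.1 r hr
    have hrM' := hX'.1 r' hr'
    have h5 : r - r' ∈ ((l * g' : Ideal (𝓞 K)) : FI K) * M :=
      (key_iff hcop hg hG (hα r hrM) (hα r' hrM')).mpr ⟨h3, h4⟩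
    obtain ⟨r0, _, huniq⟩ := hX'.2 r hrM
    have e1 := huniq r ⟨hr, by
      rw [sub_self]
      exact (((((l * g' : Ideal (𝓞 K)) : FI K) * M : FI K)) : Submodule (𝓞 K) K).zero_mem⟩
    have e2 := huniq r' ⟨hr', h5⟩
    rw [e1, e2]
  · rintro ⟨a, r'⟩ hmem
    have hr' : r' ∈ XB := (Finset.mem_product.mp hmem).2
    obtain ⟨a0, rfl⟩ := Ideal.Quotient.mk_surjective a
    obtain ⟨b0, rfl⟩ := Ideal.Quotient.mk_surjective r'
    obtain ⟨c0, hc1, hc2⟩ := crt hcop a0 b0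
    have hxM : (c0 : K) * x₀ ∈ M := smul_mem_FI M c0 hG.mem
    obtain ⟨r, ⟨hr, hxr⟩, _⟩ := hX'.2 _ hxM
    have hself : (c0 : K) * x₀ - (c0 : K) * x₀ ∈ ((l * f1 : Ideal (𝓞 K)) : FI K) * M := by
      rw [sub_self]
      exact (((((l * f1 : Ideal (𝓞 K)) : FI K) * M : FI K)) : Submodule (𝓞 K) K).zero_mem
    obtain ⟨k1, k2⟩ := (key_iff hcop hg hG hself (hα r (hX'.1 r hr))).mp hxr
    refine ⟨r, hr, ?_⟩
    refine Prod.ext ?_ ?_
    · change Ideal.Quotient.mk l (α r) = Ideal.Quotient.mk l a0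
      rw [Ideal.Quotient.eq]
      have e1 : α r - a0 = (c0 - a0) - (c0 - α r) := by ring
      rw [e1]
      exact sub_mem hc1 k1
    · change ρ (Ideal.Quotient.mk f1 (α r)) = Ideal.Quotient.mk f1 b0
      refine (hρ2 (Ideal.Quotient.mk f1 (α r)) (Ideal.Quotient.mk f1 b0) ⟨hr', ?_⟩).symm
      rw [hmk]
      have e1 : α r - b0 = (c0 - b0) - (c0 - α r) := by ring
      rw [e1]
      exact sub_mem (hg hc2) k2
  · intro r _
    exact hΨ _ _ _ (hρ1 _).2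

/-- `G` is essential -/
theorem essential {l g k : Ideal (𝓞 K)} (hG : GK l g k) (w : 𝓞 K ⧸ (g * k ^ 2)) (hw : w ≠ 0) :
    ∃ r : 𝓞 K ⧸ (g * k ^ 2), r * w ≠ 0 ∧ r * w ∈ g.map (Ideal.Quotient.mk (g * k ^ 2)) := by
  have hk2 : k ^ 2 ≠ ⊥ := pow_ne_zero 2 hG.k_ne
  have hf1 : g * k ^ 2 ≠ ⊥ := mul_ne_zero hG.g_ne hk2
  obtain ⟨w0, rfl⟩ := Ideal.Quotient.mk_surjective w
  have hw0 : w0 ∉ g * k ^ 2 := fun h => hw (Ideal.Quotient.eq_zero_iff_mem.mpr h)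
  obtain ⟨J, hJ⟩ := Ideal.dvd_iff_le.mpr (le_sup_right : g * k ^ 2 ≤
    Ideal.span {w0} ⊔ g * k ^ 2)
  have hJt : J ≠ ⊤ := by
    rintro rfl
    rw [Ideal.mul_top] at hJ
    apply hw0
    rw [hJ]
    exact (le_sup_left : Ideal.span {w0} ≤ _) (Ideal.mem_span_singleton_self w0)
  obtain ⟨P, hPm, hJP⟩ := Ideal.exists_le_maximal J hJt
  have hPp := hPm.isPrime
  have hf1P : g * k ^ 2 ≤ P := by
    rw [hJ]
    exact Ideal.mul_le_right.trans hJP
  have hkP : k ≤ P := by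
    rcases (hPp.mul_le).mp hf1P with h3 | h3
    · exact (hG.rad P hPp).mp h3
    · exact hPp.le_of_pow_le h3
  have hP0 : P ≠ ⊥ := fun h => hf1 (le_bot_iff.mp (h ▸ hf1P))
  obtain ⟨J', hJ'⟩ := Ideal.dvd_iff_le.mpr hJP
  obtain ⟨k', hk'⟩ := Ideal.dvd_iff_le.mpr hkP
  have hI0 : Ideal.span {w0} ⊔ g * k ^ 2 ≠ ⊥ := by
    intro h
    rw [h, Ideal.bot_mul] at hJ
    exact hf1 hJ
  have hD : (Ideal.span {w0} ⊔ g * k ^ 2) * J' = g * (k * k') := by
    have h1 : P * ((Ideal.span {w0} ⊔ g * k ^ 2) * J') = P * (g * (k * k')) := by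
      calc P * ((Ideal.span {w0} ⊔ g * k ^ 2) * J')
          = (Ideal.span {w0} ⊔ g * k ^ 2) * (P * J') := by ring
        _ = g * k ^ 2 := by rw [← hJ', ← hJ]
        _ = g * (k * (P * k')) := by rw [← hk', pow_two]
        _ = P * (g * (k * k')) := by ring
    exact mul_left_cancel₀ hP0 h1
  have hDne : ¬ ((Ideal.span {w0} ⊔ g * k ^ 2) * J' ≤ g * k ^ 2) := by
    intro h
    have h1 : g * k ^ 2 = P * ((Ideal.span {w0} ⊔ g * k ^ 2) * J') := by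
      calc g * k ^ 2 = (Ideal.span {w0} ⊔ g * k ^ 2) * J := hJ
        _ = (Ideal.span {w0} ⊔ g * k ^ 2) * (P * J') := by rw [← hJ']
        _ = P * ((Ideal.span {w0} ⊔ g * k ^ 2) * J') := by ring
    have h2 : P * ((Ideal.span {w0} ⊔ g * k ^ 2) * J') ≤ P * (g * k ^ 2) :=
      Ideal.mul_mono_right h
    rw [← h1] at h2
    have h3 : P * (g * k ^ 2) ∣ g * k ^ 2 := Ideal.dvd_iff_le.mpr h2
    have h4 : P * (g * k ^ 2) ∣ 1 * (g * k ^ 2) := by rw [one_mul]; exact h3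
    have h5 := (mul_dvd_mul_iff_right (show (g * k ^ 2) ≠ 0 from hf1)).mp h4
    have h6 := Ideal.isUnit_iff.mp (isUnit_of_dvd_one h5)
    exact hPm.ne_top h6
  obtain ⟨x, hxD, hxf⟩ := SetLike.not_le_iff_exists.mp hDne
  have hxI : x ∈ Ideal.span {w0} ⊔ g * k ^ 2 :=
    (Ideal.mul_le_left : (Ideal.span {w0} ⊔ g * k ^ 2) * J' ≤ _) hxD
  have hxg : x ∈ g := by
    rw [hD] at hxD
    exact (Ideal.mul_le_left : g * (k * k') ≤ g) hxD
  obtain ⟨y, hy, s, hs, hys⟩ := Submodule.mem_sup.mp hxI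
  obtain ⟨r, rfl⟩ := Ideal.mem_span_singleton'.mp hy
  have h6 : Ideal.Quotient.mk (g * k ^ 2) r * Ideal.Quotient.mk (g * k ^ 2) w0 =
      Ideal.Quotient.mk (g * k ^ 2) x := by
    rw [← map_mul, Ideal.Quotient.eq]
    have h7 : r * w0 - x = -s := by linear_combination hys
    rw [h7]
    exact neg_mem hs
  refine ⟨Ideal.Quotient.mk (g * k ^ 2) r, ?_, ?_⟩
  · rw [h6]
    intro h7
    exact hxf (Ideal.Quotient.eq_zero_iff_mem.mp h7)
  · rw [h6]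
    exact Ideal.mem_map_of_mem _ hxg

variable (K)

/-- the additive character -/
noncomputable def eps (x : K) : ℂ := cexp (2 * Real.pi * I * ((Algebra.trace ℚ K x : ℚ) : ℂ))

variable {K}

theorem eps_add (x y : K) : eps K (x + y) = eps K x * eps K y := by
  unfold eps
  rw [map_add, Rat.cast_add, mul_add, Complex.exp_add]

theorem eps_norm (x : K) : ‖eps K x‖ = 1 := by
  unfold eps
  have h : 2 * (Real.pi : ℂ) * I * ((Algebra.trace ℚ K x : ℚ) : ℂ) =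
      ((2 * Real.pi * ((Algebra.trace ℚ K x : ℚ) : ℝ) : ℝ) : ℂ) * I := by
    push_cast
    ring
  rw [h]
  exact Complex.norm_exp_ofReal_mul_I _

theorem eps_one_iff (x : K) : eps K x = 1 ↔ ∃ m : ℤ, Algebra.trace ℚ K x = m := by
  unfold eps
  rw [Complex.exp_eq_one_iff]
  constructor
  · rintro ⟨m, hm⟩
    refine ⟨m, ?_⟩
    have h1 : (2 * (Real.pi : ℂ) * I) ≠ 0 := Complex.two_pi_I_ne_zero
    have h2 : ((Algebra.trace ℚ K x : ℚ) : ℂ) = (m : ℂ) := by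
      apply mul_left_cancel₀ h1
      rw [hm]
      ring
    exact_mod_cast h2
  · rintro ⟨m, hm⟩
    refine ⟨m, ?_⟩
    rw [hm]
    push_cast
    ring

theorem eps_of_mem {L : FI K} (hL : L ≠ 0) {a x : K} (ha : a ∈ L) (hx : x ∈ du K L) :
    eps K (a * x) = 1 :=
  (eps_one_iff _).mpr (trace_int K L hL a x ha hx)

theorem mul_du {f : Ideal (𝓞 K)} (hf : f ≠ ⊥) {M : FI K} (hM : M ≠ 0) :
    (f : FI K) * du K ((f : FI K) * M) = du K M := by
  have hf0 : (f : FI K) ≠ 0 := FractionalIdeal.coeIdeal_ne_zero.mpr hf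
  have hL : (f : FI K) * M ≠ 0 := mul_ne_zero hf0 hM
  obtain ⟨-, -, h1, -, -⟩ := Pool.Agent.H63.HK.du K M hM
  obtain ⟨-, -, h2, -, -⟩ := Pool.Agent.H63.HK.du K _ hL
  rw [h1, h2, mul_inv, ← mul_assoc, ← mul_assoc, mul_inv_cancel₀ hf0, one_mul]

/-- the additive character generates the dual group -/
theorem gen_w {f : Ideal (𝓞 K)} (hf : f ≠ ⊥) {M : FI K} (hM : M ≠ 0) {x₀ y₀ : K}
    (hx : Gn f M x₀) (hy : Gn f (du K ((f : FI K) * M)) y₀) (w : 𝓞 K)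
    (h : ∀ r : 𝓞 K, eps K (((r * w : 𝓞 K) : K) * (x₀ * y₀)) = 1) : w ∈ f := by
  have hf0 : (f : FI K) ≠ 0 := FractionalIdeal.coeIdeal_ne_zero.mpr hf
  have hL : (f : FI K) * M ≠ 0 := mul_ne_zero hf0 hM
  rw [← hy.iff w f le_rfl, mul_du hf hM]
  unfold du
  rw [FractionalIdeal.mem_dual hM]
  intro m hm
  obtain ⟨a, -, ha⟩ := hx.gen m hm
  have h1 : eps K (m * ((w : K) * y₀)) = 1 := by
    have e1 : m * ((w : K) * y₀) = (((a * w : 𝓞 K) : K) * (x₀ * y₀)) +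
        ((w : K) * (m - (a : K) * x₀)) * y₀ := by
      have : ((a * w : 𝓞 K) : K) = (a : K) * (w : K) := map_mul (algebraMap (𝓞 K) K) a w
      rw [this]
      ring
    rw [e1, eps_add, h a, one_mul]
    exact eps_of_mem hL (smul_mem_FI _ w ha) hy.mem
  obtain ⟨n, hn⟩ := (eps_one_iff _).mp h1
  refine ⟨n, ?_⟩
  rw [Algebra.traceForm_apply, mul_comm, hn]
  simp

end

end Pool.Agent.H26.THC
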