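import Pool.Agent.H29.TC.Targets
import Pool.Agent.H28.RC.Basic

/-!
# (SP) the local component of a Hecke character at the primes dividing `k`
-/

set_option autoImplicit false

open NumberField NumberField.InfinitePlace NumberField.Units
  NumberField.Units.dirichletUnitTheorem MeasureTheory Set Filter Complex
open scoped nonZeroDivisors ENNReal

namespace Pool.Agent.H26.THC

open Pool.Agent.H28.RC hiding cf gS conj_sg
open Pool.Agent.H25.HK Pool.Agent.H23.LB Pool.Agent.H29.TC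

section

variable {K : Type} [Field K] [NumberField K] {f : Ideal (𝓞 K)}

omit [NumberField K] in
theorem isUnit_of_sup (f : Ideal (𝓞 K)) (a : 𝓞 K) (h : Ideal.span {a} ⊔ f = ⊤) :
    IsUnit (Ideal.Quotient.mk f a) := by
  have h1 : (1 : 𝓞 K) ∈ Ideal.span {a} ⊔ f := by rw [h]; trivial
  obtain ⟨x, hx, y, hy, hxy⟩ := Submodule.mem_sup.mp h1
  obtain ⟨b, rfl⟩ := Ideal.mem_span_singleton'.mp hx
  have h2 : Ideal.Quotient.mk f b * Ideal.Quotient.mk f a = 1 := by
    rw [← map_mul, ← map_one (Ideal.Quotient.mk f), Ideal.Quotient.eq]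
    have : b * a - 1 = -y := by rw [← hxy]; ring
    rw [this]
    exact neg_mem hy
  exact IsUnit.of_mul_eq_one_right _ h2

omit [NumberField K] in
theorem sup_of_isUnit (f : Ideal (𝓞 K)) (a : 𝓞 K) (h : IsUnit (Ideal.Quotient.mk f a)) :
    Ideal.span {a} ⊔ f = ⊤ := by
  obtain ⟨b, hb⟩ := h.exists_left_inv
  obtain ⟨b, rfl⟩ := Ideal.Quotient.mk_surjective b
  rw [← map_mul, ← map_one (Ideal.Quotient.mk f), Ideal.Quotient.eq] at hb
  rw [Ideal.eq_top_iff_one]
  have : (1 : 𝓞 K) = b * a + -(b * a - 1) := by ring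
  rw [this]
  exact Submodule.add_mem_sup (Ideal.mem_span_singleton'.mpr ⟨b, rfl⟩) (neg_mem hb)

theorem ph_mul0 (ν : InfinitePlace K → ℝ) {x y : K} (hx : x ≠ 0) (hy : y ≠ 0) :
    ph ν (x * y) = ph ν x * ph ν y := by
  unfold ph
  rw [← Complex.exp_add]
  have h1 : ∑ v : InfinitePlace K, (v.mult : ℝ) * ν v * Real.log (v (x * y)) =
      ∑ v : InfinitePlace K, (v.mult : ℝ) * ν v * Real.log (v x) +
        ∑ v : InfinitePlace K, (v.mult : ℝ) * ν v * Real.log (v y) := by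
    rw [← Finset.sum_add_distrib]
    refine Finset.sum_congr rfl fun v _ => ?_
    rw [map_mul, Real.log_mul (by simpa using hx) (by simpa using hy)]
    ring
  rw [h1]
  push_cast
  ring_nf

theorem norm_ph0 (ν : InfinitePlace K → ℝ) (x : K) : ‖ph ν x‖ = 1 := by
  unfold ph
  exact Complex.norm_exp_ofReal_mul_I _

theorem ph_conj0 (ν : InfinitePlace K → ℝ) (x : K) : ph ν x * (starRingEnd ℂ) (ph ν x) = 1 := by
  rw [mul_conj, normSq_eq_norm_sq, norm_ph0]
  simp

/-- the multiplicative function of a Hecke character on the nonzero elements -/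
noncomputable def E0 (χ : HC K f) (a : 𝓞 K) : ℂ :=
  sg K χ.S a * (starRingEnd ℂ) (ph χ.ν (a : K)) * χ.ψ (Ideal.span {a})

open scoped Classical in
/-- the multiplicative function of a Hecke character on the elements -/
noncomputable def E1 (χ : HC K f) (a : 𝓞 K) : ℂ := if a = 0 then 0 else E0 χ a

theorem E1_eq (χ : HC K f) {a : 𝓞 K} (h : a ≠ 0) : E1 χ a = E0 χ a := by
  unfold E1
  rw [if_neg h]

theorem E1_zero (χ : HC K f) : E1 χ 0 = 0 := by
  unfold E1
  rw [if_pos rfl]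

theorem E0_mul (χ : HC K f) {a b : 𝓞 K} (ha : a ≠ 0) (hb : b ≠ 0) :
    E0 χ (a * b) = E0 χ a * E0 χ b := by
  unfold E0
  have ha' : (a : K) ≠ 0 := RingOfIntegers.coe_ne_zero_iff.mpr ha
  have hb' : (b : K) ≠ 0 := RingOfIntegers.coe_ne_zero_iff.mpr hb
  have h1 : ((a * b : 𝓞 K) : K) = (a : K) * (b : K) := map_mul (algebraMap (𝓞 K) K) a b
  rw [h1, sg_mul χ.S ha' hb', ph_mul0 χ.ν ha' hb', map_mul,
    ← Ideal.span_singleton_mul_span_singleton, χ.map_mul]
  ring

theorem E0_princ (χ : HC K f) {a : 𝓞 K} (ha : a ≠ 0) (h : a - 1 ∈ f) : E0 χ a = 1 := by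
  unfold E0
  rw [χ.princ a ha h]
  have h1 := sg_sq χ.S (a : K)
  have h2 := ph_conj0 χ.ν (a : K)
  linear_combination h1 + (sg K χ.S (a : K) * sg K χ.S (a : K)) * h2

theorem E1_mul (χ : HC K f) (a b : 𝓞 K) : E1 χ (a * b) = E1 χ a * E1 χ b := by
  by_cases ha : a = 0
  · rw [ha, zero_mul, E1_zero, zero_mul]
  by_cases hb : b = 0
  · rw [hb, mul_zero, E1_zero, mul_zero]
  rw [E1_eq χ ha, E1_eq χ hb, E1_eq χ (mul_ne_zero ha hb), E0_mul χ ha hb]

theorem E1_one (χ : HC K f) : E1 χ 1 = 1 := by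
  rw [E1_eq χ one_ne_zero]
  exact E0_princ χ one_ne_zero (by rw [sub_self]; exact zero_mem f)

theorem E1_of_not (χ : HC K f) {a : 𝓞 K} (h : Ideal.span {a} ⊔ f ≠ ⊤) : E1 χ a = 0 := by
  by_cases ha : a = 0
  · rw [ha, E1_zero]
  · rw [E1_eq χ ha]
    unfold E0
    rw [χ.eq_zero _ h, mul_zero]

theorem E1_norm_le (χ : HC K f) (a : 𝓞 K) : ‖E1 χ a‖ ≤ 1 := by
  by_cases ha : a = 0
  · rw [ha, E1_zero, norm_zero]
    exact zero_le_one
  by_cases h : Ideal.span {a} ⊔ f = ⊤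
  · rw [E1_eq χ ha]
    unfold E0
    have h1 : Ideal.span {a} ≠ ⊥ := by
      rw [Ne, Ideal.span_singleton_eq_bot]
      exact ha
    rw [norm_mul, norm_mul, norm_sg, one_mul, RCLike.norm_conj, norm_ph0, one_mul,
      χ.norm_one _ h1 h]
  · rw [E1_of_not χ h, norm_zero]
    exact zero_le_one

theorem E1_congr (χ : HC K f) (hft : f ≠ ⊤) {a b : 𝓞 K} (h : a - b ∈ f) :
    E1 χ a = E1 χ b := by
  have hmk : Ideal.Quotient.mk f a = Ideal.Quotient.mk f b := Ideal.Quotient.eq.mpr h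
  have h1f : (1 : 𝓞 K) ∉ f := fun h1 => hft ((Ideal.eq_top_iff_one f).mpr h1)
  by_cases ha : Ideal.span {a} ⊔ f = ⊤
  · have hua := isUnit_of_sup f a ha
    have hub : IsUnit (Ideal.Quotient.mk f b) := by rw [← hmk]; exact hua
    obtain ⟨q, hq⟩ := hua.exists_left_inv
    obtain ⟨c, rfl⟩ := Ideal.Quotient.mk_surjective q
    rw [← map_mul, ← map_one (Ideal.Quotient.mk f), Ideal.Quotient.eq] at hq
    have hc0 : c ≠ 0 := by
      rintro rfl
      apply h1f
      have : (1 : 𝓞 K) = -(0 * a - 1) := by ring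
      rw [this]
      exact neg_mem hq
    have ha0 : a ≠ 0 := by
      rintro rfl
      apply h1f
      have : (1 : 𝓞 K) = -(c * 0 - 1) := by ring
      rw [this]
      exact neg_mem hq
    have hq' : c * b - 1 ∈ f := by
      have : c * b - 1 = (c * a - 1) - c * (a - b) := by ring
      rw [this]
      exact sub_mem hq (Ideal.mul_mem_left _ _ h)
    have hb0 : b ≠ 0 := by
      rintro rfl
      apply h1f
      have : (1 : 𝓞 K) = -(c * 0 - 1) := by ring
      rw [this]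
      exact neg_mem hq'
    have e1 : E0 χ c * E0 χ a = 1 := by
      rw [← E0_mul χ hc0 ha0]
      exact E0_princ χ (mul_ne_zero hc0 ha0) hq
    have e2 : E0 χ c * E0 χ b = 1 := by
      rw [← E0_mul χ hc0 hb0]
      exact E0_princ χ (mul_ne_zero hc0 hb0) hq'
    rw [E1_eq χ ha0, E1_eq χ hb0]
    have hne : E0 χ c ≠ 0 := left_ne_zero_of_mul_eq_one e1
    exact mul_left_cancel₀ hne (e1.trans e2.symm)
  · have hb : Ideal.span {b} ⊔ f ≠ ⊤ := by
      intro hb
      apply ha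
      apply sup_of_isUnit
      rw [hmk]
      exact isUnit_of_sup f b hb
    rw [E1_of_not χ ha, E1_of_not χ hb]

theorem gn_mono {f g : Ideal (𝓞 K)} {M : FI K} {x₀ : K} (h : Gn f M x₀) (hfg : f ≤ g) :
    Gn g M x₀ where
  mem := h.mem
  ne := h.ne
  gen y hy := by
    obtain ⟨a, ha0, ha⟩ := h.gen y hy
    exact ⟨a, ha0, mul_le_mul_left ((FractionalIdeal.coeIdeal_le_coeIdeal K).mpr hfg) M ha⟩
  iff a j hj := h.iff a j (hfg.trans hj)

omit [NumberField K] in
theorem gn_unique {f : Ideal (𝓞 K)} {M : FI K} {x₀ : K} (h : Gn f M x₀) {a b : 𝓞 K} {x : K}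
    (ha : x - (a : K) * x₀ ∈ (f : FI K) * M) (hb : x - (b : K) * x₀ ∈ (f : FI K) * M) :
    a - b ∈ f := by
  rw [← h.iff (a - b) f le_rfl]
  have h1 : ((a - b : 𝓞 K) : K) = (a : K) - (b : K) := map_sub (algebraMap (𝓞 K) K) a b
  have h2 : ((a - b : 𝓞 K) : K) * x₀ = (x - (b : K) * x₀) - (x - (a : K) * x₀) := by
    rw [h1]; ring
  rw [h2]
  exact (((f : FI K) * M : FI K) : Submodule (𝓞 K) K).sub_mem hb ha

omit [NumberField K] in
theorem cq_eq (f : Ideal (𝓞 K)) (η : 𝓞 K ⧸ f → ℂ) {M : FI K} {x₀ : K} (h : Gn f M x₀)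
    (a : 𝓞 K) (x : K) (hx : x - (a : K) * x₀ ∈ (f : FI K) * M) :
    cq f η M x₀ x = η (Ideal.Quotient.mk f a) := by
  unfold cq
  have hex : ∃ a : 𝓞 K, x - (a : K) * x₀ ∈ (f : FI K) * M := ⟨a, hx⟩
  rw [dif_pos hex]
  congr 1
  rw [Ideal.Quotient.eq]
  exact gn_unique h hex.choose_spec hx

omit [NumberField K] in
theorem gk_sup {l g k : Ideal (𝓞 K)} (hG : GK l g k) : l ⊔ g * k ^ 2 = ⊤ := by
  by_contra h
  obtain ⟨P, hP, hle⟩ := Ideal.exists_le_maximal _ h
  have hPp := hP.isPrime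
  have h1 : g * k ^ 2 ≤ P := le_sup_right.trans hle
  have h2 : k ≤ P := by
    rcases (hPp.mul_le).mp h1 with h3 | h3
    · exact (hG.rad P hPp).mp h3
    · exact hPp.le_of_pow_le h3
  have h3 : l ⊔ k ≤ P := sup_le (le_sup_left.trans hle) h2
  rw [hG.cop, top_le_iff] at h3
  exact hP.ne_top h3

end

theorem pf_SP (hCF : T_CF) : T_SP := by
  intro K _ _ l g k hG χ hP
  have hk2 : k ^ 2 ≠ ⊥ := pow_ne_zero 2 hG.k_ne
  have hf1 : g * k ^ 2 ≠ ⊥ := mul_ne_zero hG.g_ne hk2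
  have hf : fk l g k ≠ ⊥ := mul_ne_zero hG.l_ne hf1
  have hff1 : fk l g k ≤ g * k ^ 2 := Ideal.mul_le_right
  have hfl : fk l g k ≤ l := Ideal.mul_le_left
  have hf1k : g * k ^ 2 ≤ k := Ideal.mul_le_right.trans (Ideal.pow_le_self two_ne_zero)
  have hf1t : g * k ^ 2 ≠ ⊤ := fun h => hG.k_top (top_le_iff.mp (h ▸ hf1k))
  have hft : fk l g k ≠ ⊤ := fun h => hf1t (top_le_iff.mp (h ▸ hff1))
  have hcop := gk_sup hG
  have h1 : (1 : 𝓞 K) ∈ l ⊔ g * k ^ 2 := by rw [hcop]; trivial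
  obtain ⟨u, hu, v, hv, huv⟩ := Submodule.mem_sup.mp h1
  have hu1 : ∀ w ∈ g * k ^ 2, u * w ∈ fk l g k := fun w hw => Ideal.mul_mem_mul hu hw
  have hv1 : ∀ w ∈ l, v * w ∈ fk l g k := fun w hw => by
    rw [mul_comm]
    exact Ideal.mul_mem_mul hw hv
  let η : 𝓞 K ⧸ (g * k ^ 2) → ℂ := fun q => E1 χ (v + u * q.out)
  have hη : ∀ a : 𝓞 K, η (Ideal.Quotient.mk (g * k ^ 2) a) = E1 χ (v + u * a) := by
    intro a
    refine E1_congr χ hft ?_
    have h2 : (Ideal.Quotient.mk (g * k ^ 2) a).out - a ∈ g * k ^ 2 := by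
      rw [← Ideal.Quotient.eq]
      exact Quotient.out_eq _
    have h3 : v + u * (Ideal.Quotient.mk (g * k ^ 2) a).out - (v + u * a) =
      u * ((Ideal.Quotient.mk (g * k ^ 2) a).out - a) := by ring
    rw [h3]
    exact hu1 _ h2
  have hsup : ∀ a : 𝓞 K, Ideal.span {a} ⊔ fk l g k = ⊤ → Ideal.span {a} ⊔ g * k ^ 2 = ⊤ :=
    fun a ha => top_le_iff.mp (ha ▸ sup_le_sup_left hff1 _)
  have hvu : v = 1 - u := by rw [← huv]; ring
  have hmul : ∀ x y, η (x * y) = η x * η y := by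
    intro x y
    obtain ⟨a, rfl⟩ := Ideal.Quotient.mk_surjective x
    obtain ⟨b, rfl⟩ := Ideal.Quotient.mk_surjective y
    rw [← map_mul, hη, hη, hη, ← E1_mul]
    refine E1_congr χ hft ?_
    have h3 : v + u * (a * b) - (v + u * a) * (v + u * b) =
      u * (v * (1 + a * b - a - b)) := by
      rw [hvu]; ring
    rw [h3]
    exact hu1 _ (Ideal.mul_mem_right _ _ hv)
  have hone : η 1 = 1 := by
    rw [← map_one (Ideal.Quotient.mk (g * k ^ 2)), hη, mul_one, add_comm, huv, E1_one]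
  refine ⟨η, ⟨⟨hone, hmul, ?_, ?_⟩, ?_⟩, ?_⟩
  · -- units
    intro x hx
    obtain ⟨y, hy⟩ := hx.exists_left_inv
    have h3 : η y * η x = 1 := by rw [← hmul, hy, hone]
    have h4 : ‖η y‖ ≤ 1 := E1_norm_le χ _
    have h5 : ‖η x‖ ≤ 1 := E1_norm_le χ _
    have h6 : ‖η y‖ * ‖η x‖ = 1 := by rw [← norm_mul, h3, norm_one]
    have h7 := norm_nonneg (η x)
    refine le_antisymm h5 ?_
    rw [← h6]
    exact mul_le_of_le_one_left h7 h4
  · -- non units
    intro x hx
    obtain ⟨a, rfl⟩ := Ideal.Quotient.mk_surjective x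
    rw [hη]
    refine E1_of_not χ fun h => hx ?_
    have h3 := isUnit_of_sup (g * k ^ 2) _ (hsup _ h)
    have h4 : Ideal.Quotient.mk (g * k ^ 2) (v + u * a) = Ideal.Quotient.mk (g * k ^ 2) a := by
      rw [Ideal.Quotient.eq]
      have h5 : v + u * a - a = v * (1 - a) := by rw [hvu]; ring
      rw [h5]
      exact Ideal.mul_mem_right _ _ hv
    rw [h4] at h3
    exact h3
  · -- primitive
    intro w hw
    obtain ⟨w0, rfl⟩ := Ideal.Quotient.mk_surjective w
    have hw0 : w0 ∉ g * k ^ 2 := fun h => hw (Ideal.Quotient.eq_zero_iff_mem.mpr h)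
    obtain ⟨J, hJ⟩ := Ideal.dvd_iff_le.mpr (le_sup_right : g * k ^ 2 ≤
      Ideal.span {w0} ⊔ g * k ^ 2)
    have hJt : J ≠ ⊤ := by
      rintro rfl
      rw [Ideal.mul_top] at hJ
      apply hw0
      rw [hJ]
      exact (le_sup_left : Ideal.span {w0} ≤ _) (Ideal.mem_span_singleton_self w0)
    obtain ⟨P, hPm, hJP⟩ := Ideal.exists_le_maximal J hJt
    have hPp := hPm.isPrime
    have hf1P : g * k ^ 2 ≤ P := by
      rw [hJ]
      exact Ideal.mul_le_right.trans hJP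
    have hkP : k ≤ P := by
      rcases (hPp.mul_le).mp hf1P with h3 | h3
      · exact (hG.rad P hPp).mp h3
      · exact hPp.le_of_pow_le h3
    have hP0 : P ≠ ⊥ := fun h => hf1 (le_bot_iff.mp (h ▸ hf1P))
    obtain ⟨J', hJ'⟩ := Ideal.dvd_iff_le.mpr hJP
    obtain ⟨a, ha0, ha1, ha2, ha3⟩ := hP P hPp hkP
    have h3 : Ideal.span {a - 1} * P ≤ g * k ^ 2 := by
      rw [Ideal.mul_le]
      intro r hr s hs
      obtain ⟨c, rfl⟩ := Ideal.mem_span_singleton'.mp hr
      rw [mul_assoc]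
      exact Ideal.mul_mem_left _ _ (hff1 (ha2 s hs))
    have h4 : Ideal.span {a - 1} ≤ Ideal.span {w0} ⊔ g * k ^ 2 := by
      rw [← Ideal.dvd_iff_le] at h3 ⊢
      have h5 : (Ideal.span {w0} ⊔ g * k ^ 2) * J' * P ∣ Ideal.span {a - 1} * P := by
        refine dvd_trans ?_ h3
        rw [mul_assoc, mul_comm J' P, ← hJ', ← hJ]
      have h6 := (mul_dvd_mul_iff_right (show P ≠ 0 from hP0)).mp h5
      exact dvd_trans (dvd_mul_right _ _) h6
    have h5 : a - 1 ∈ Ideal.span {w0} ⊔ g * k ^ 2 := h4 (Ideal.mem_span_singleton_self _)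
    obtain ⟨x, hx, s, hs, hxs⟩ := Submodule.mem_sup.mp h5
    obtain ⟨r, rfl⟩ := Ideal.mem_span_singleton'.mp hx
    have h6 : 1 + Ideal.Quotient.mk (g * k ^ 2) r * Ideal.Quotient.mk (g * k ^ 2) w0 =
        Ideal.Quotient.mk (g * k ^ 2) a := by
      rw [← map_mul, ← map_one (Ideal.Quotient.mk (g * k ^ 2)), ← map_add, Ideal.Quotient.eq]
      have h7 : 1 + r * w0 - a = -s := by linear_combination hxs
      rw [h7]
      exact neg_mem hs
    have hal : a - 1 ∈ l := by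
      have h7 : l ⊔ P = ⊤ := top_le_iff.mp (hG.cop ▸ sup_le_sup_left hkP l)
      have h8 : (1 : 𝓞 K) ∈ l ⊔ P := by rw [h7]; trivial
      obtain ⟨s', hs', p', hp', hsp⟩ := Submodule.mem_sup.mp h8
      have h9 : a - 1 = (a - 1) * s' + (a - 1) * p' := by
        rw [← mul_add, hsp, mul_one]
      rw [h9]
      exact add_mem (Ideal.mul_mem_left _ _ hs') (hfl (ha2 p' hp'))
    refine ⟨Ideal.Quotient.mk (g * k ^ 2) r, ?_, ?_⟩
    · rw [h6]
      exact isUnit_of_sup _ _ (hsup a ha1)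
    · rw [h6, hη]
      have h7 : E1 χ (v + u * a) = E1 χ a := by
        refine E1_congr χ hft ?_
        have h8 : v + u * a - a = v * -(a - 1) := by rw [hvu]; ring
        rw [h8]
        exact hv1 _ (neg_mem hal)
      rw [h7, E1_eq χ ha0]
      intro h8
      apply ha3
      unfold E0 at h8
      have h9 := sg_sq χ.S (a : K)
      have h10 := ph_conj0 χ.ν (a : K)
      linear_combination (sg K χ.S (a : K) * ph χ.ν (a : K)) * h8 -
        (χ.ψ (Ideal.span {a})) * h9 - (sg K χ.S (a : K) * sg K χ.S (a : K) *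
        χ.ψ (Ideal.span {a})) * h10
  · -- the coefficients
    intro M x₀ hM hGn
    obtain ⟨-, hc2, hc3, -, hc5, -, -, -, -⟩ := hCF K (fk l g k) χ M hf hM
    classical
    let c : K → ℂ := fun x => if h : ∃ a : 𝓞 K, x - (a : K) * x₀ ∈ (l : FI K) * M then
      E1 χ (v * h.choose + u) * cf χ M x₀ else 0
    have hGl := gn_mono hGn hfl
    have hG1 := gn_mono hGn hff1
    have hlM : ((fk l g k : Ideal (𝓞 K)) : FI K) * M ≤ (l : FI K) * M :=
      mul_le_mul_left ((FractionalIdeal.coeIdeal_le_coeIdeal K).mpr hfl) M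
    have h1M : ((fk l g k : Ideal (𝓞 K)) : FI K) * M ≤ ((g * k ^ 2 : Ideal (𝓞 K)) : FI K) * M :=
      mul_le_mul_left ((FractionalIdeal.coeIdeal_le_coeIdeal K).mpr hff1) M
    have hc : ∀ (a : 𝓞 K) (x : K), x - (a : K) * x₀ ∈ (l : FI K) * M →
        c x = E1 χ (v * a + u) * cf χ M x₀ := by
      intro a x hx
      have hex : ∃ a : 𝓞 K, x - (a : K) * x₀ ∈ (l : FI K) * M := ⟨a, hx⟩
      change (if h : ∃ a : 𝓞 K, x - (a : K) * x₀ ∈ (l : FI K) * M then
        E1 χ (v * h.choose + u) * cf χ M x₀ else 0) = _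
      rw [dif_pos hex]
      congr 1
      refine E1_congr χ hft ?_
      have h3 : v * hex.choose + u - (v * a + u) = v * (hex.choose - a) := by ring
      rw [h3]
      exact hv1 _ (gn_unique hGl hex.choose_spec hx)
    refine ⟨c, ?_, ?_, ?_⟩
    · intro x _
      change ‖(if h : ∃ a : 𝓞 K, x - (a : K) * x₀ ∈ (l : FI K) * M then
        E1 χ (v * h.choose + u) * cf χ M x₀ else 0)‖ ≤ 1
      split_ifs with h
      · rw [norm_mul]
        exact mul_le_one₀ (E1_norm_le χ _) (norm_nonneg _) (hc2 x₀ hGn.mem)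
      · rw [norm_zero]
        exact zero_le_one
    · intro x hx t ht
      obtain ⟨a, -, ha⟩ := hGn.gen x hx
      have ha' := hlM ha
      rw [hc a x ha', hc a (x + t)]
      have h3 : x + t - (a : K) * x₀ = (x - (a : K) * x₀) + t := by ring
      rw [h3]
      exact ((((l : FI K) * M : FI K)) : Submodule (𝓞 K) K).add_mem ha' ht
    · intro x hx
      obtain ⟨a, ha0, ha⟩ := hGn.gen x hx
      rw [hc a x (hlM ha), cq_eq (g * k ^ 2) η hG1 a x (h1M ha), hη]
      have hax : (a : K) * x₀ ∈ M := by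
        have h3 : (a : K) * x₀ = a • x₀ := by rw [Algebra.smul_def]
        rw [h3]
        exact (M : Submodule (𝓞 K) K).smul_mem a hGn.mem
      have h3 : x = (a : K) * x₀ + (x - (a : K) * x₀) := by ring
      have h4 : cf χ M x = cf χ M ((a : K) * x₀) := by
        conv_lhs => rw [h3]
        exact hc5 _ hax _ ha
      rw [h4, hc3 a ha0 x₀ hGn.mem]
      have h5 : sg K χ.S (a : K) * (starRingEnd ℂ) (ph χ.ν (a : K)) * χ.ψ (Ideal.span {a}) =
          E1 χ a := (E1_eq χ ha0).symm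
      have h6 : E1 χ a = E1 χ (v * a + u) * E1 χ (v + u * a) := by
        rw [← E1_mul]
        refine E1_congr χ hft ?_
        have h7 : a - (v * a + u) * (v + u * a) = u * (v * -((a - 1) ^ 2)) := by
          rw [hvu]; ring
        rw [h7]
        exact hu1 _ (Ideal.mul_mem_right _ _ hv)
      rw [h5, h6]
      ring

end Pool.Agent.H26.THC
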