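import Pool.Agent.H26.THC.TR1

/-!
# (TR) the transfer by Gauss sums
-/

set_option autoImplicit false

open NumberField NumberField.InfinitePlace NumberField.Units
  NumberField.Units.dirichletUnitTheorem MeasureTheory Set Filter Complex
open scoped nonZeroDivisors ENNReal

namespace Pool.Agent.H26.THC

open Pool.Agent.H28.RC hiding cf gS conj_sg
open Pool.Agent.H25.HK Pool.Agent.H23.LB Pool.Agent.H29.TC Pool.Agent.H26.GLA

theorem tsum_fib {Q Z : Type} [Fintype Q] (φ : Z → Q) (b : Z → ℂ) (hb : Summable fun z => ‖b z‖)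
    (h : Q → ℂ) : ∃ b' : Q → ℂ, ∀ h : Q → ℂ, ∑' z, h (φ z) * b z = ∑ q, h q * b' q := by
  classical
  refine ⟨fun q => ∑' z, if φ z = q then b z else 0, fun h => ?_⟩
  have hs : ∀ q : Q, Summable fun z => if φ z = q then b z else 0 := by
    intro q
    refine Summable.of_norm_bounded hb fun z => ?_
    split_ifs
    · exact le_rfl
    · rw [norm_zero]; exact norm_nonneg _
  have h1 : ∀ z, h (φ z) * b z = ∑ q, h q * (if φ z = q then b z else 0) := by
    intro z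
    simp
  rw [tsum_congr h1, Summable.tsum_finsetSum fun q _ => (hs q).mul_left (h q)]
  refine Finset.sum_congr rfl fun q _ => ?_
  rw [tsum_mul_left]

theorem card_prod {K : Type} [Field K] [NumberField K] (l f1 : Ideal (𝓞 K))
    [Fintype (𝓞 K ⧸ l)] [Fintype (𝓞 K ⧸ f1)] :
    (Fintype.card ((𝓞 K ⧸ l) × (𝓞 K ⧸ f1)) : ℝ) = Nf K (l * f1) := by
  unfold Nf
  rw [map_mul, Ideal.absNorm_apply, Ideal.absNorm_apply, Submodule.cardQuot_apply,
    Submodule.cardQuot_apply, Fintype.card_prod, Nat.card_eq_fintype_card,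
    Nat.card_eq_fintype_card]

theorem pf_TR (hFG : T_FG) (hFP : T_FP2) : Pool.Agent.H29.TC.T_TR := by
  intro K _ _ l g k hG η hη M x₀ y₀ c X X₁ Y hM hx hy hc1 hc2 hX hX₁ hY
  classical
  have hk2 : k ^ 2 ≠ ⊥ := pow_ne_zero 2 hG.k_ne
  have hf1 : g * k ^ 2 ≠ ⊥ := mul_ne_zero hG.g_ne hk2
  have hf : fk l g k ≠ ⊥ := mul_ne_zero hG.l_ne hf1
  have hfl : fk l g k ≤ l := Ideal.mul_le_left
  have hf1k : g * k ^ 2 ≤ k := Ideal.mul_le_right.trans (Ideal.pow_le_self two_ne_zero)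
  have hf1g : g * k ^ 2 ≤ g := Ideal.mul_le_left
  have hf1t : g * k ^ 2 ≠ ⊤ := fun h => hG.k_top (top_le_iff.mp (h ▸ hf1k))
  have hff1 : fk l g k ≤ g * k ^ 2 := Ideal.mul_le_right
  have hcop : l ⊔ g * k ^ 2 = ⊤ := gk_sup hG
  have hfin1 : Finite (𝓞 K ⧸ l) := Ideal.finiteQuotientOfFreeOfNeBot l hG.l_ne
  have hfin2 : Finite (𝓞 K ⧸ (g * k ^ 2)) := Ideal.finiteQuotientOfFreeOfNeBot _ hf1
  have hft1 : Fintype (𝓞 K ⧸ l) := Fintype.ofFinite _
  have hft2 : Fintype (𝓞 K ⧸ (g * k ^ 2)) := Fintype.ofFinite _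
  have hf0 : ((fk l g k : Ideal (𝓞 K)) : FI K) ≠ 0 := FractionalIdeal.coeIdeal_ne_zero.mpr hf
  have hL : ((fk l g k : Ideal (𝓞 K)) : FI K) * M ≠ 0 := mul_ne_zero hf0 hM
  -- lifts
  have hex : ∀ q : (𝓞 K ⧸ l) × (𝓞 K ⧸ (g * k ^ 2)), ∃ a : 𝓞 K,
      Ideal.Quotient.mk l a = q.1 ∧ Ideal.Quotient.mk (g * k ^ 2) a = q.2 := by
    rintro ⟨a, b⟩
    obtain ⟨a0, rfl⟩ := Ideal.Quotient.mk_surjective a
    obtain ⟨b0, rfl⟩ := Ideal.Quotient.mk_surjective b
    obtain ⟨c0, h1, h2⟩ := crt hcop a0 b0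
    exact ⟨c0, Ideal.Quotient.eq.mpr h1, Ideal.Quotient.eq.mpr h2⟩
  choose lift hl1 hl2 using hex
  have hαex : ∀ x : K, ∃ a : 𝓞 K, x ∈ M →
      x - (a : K) * x₀ ∈ ((fk l g k : Ideal (𝓞 K)) : FI K) * M := by
    intro x
    by_cases h : x ∈ M
    · obtain ⟨a, -, ha⟩ := hx.gen x h
      exact ⟨a, fun _ => ha⟩
    · exact ⟨0, fun h' => absurd h' h⟩
  choose α hα using hαex
  have hβex : ∀ y : K, ∃ a : 𝓞 K, y ∈ du K (((fk l g k : Ideal (𝓞 K)) : FI K) * M) →
      y - (a : K) * y₀ ∈ ((fk l g k : Ideal (𝓞 K)) : FI K) *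
        du K (((fk l g k : Ideal (𝓞 K)) : FI K) * M) := by
    intro x
    by_cases h : x ∈ du K (((fk l g k : Ideal (𝓞 K)) : FI K) * M)
    · obtain ⟨a, -, ha⟩ := hy.gen x h
      exact ⟨a, fun _ => ha⟩
    · exact ⟨0, fun h' => absurd h' h⟩
  choose β hβ using hβex
  -- the additive character
  let θ : (𝓞 K ⧸ l) × (𝓞 K ⧸ (g * k ^ 2)) → ℂ := fun q => eps K ((lift q : K) * (x₀ * y₀))
  have hθ : ∀ a : 𝓞 K, θ (Ideal.Quotient.mk l a, Ideal.Quotient.mk (g * k ^ 2) a) =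
      eps K ((a : K) * (x₀ * y₀)) := by
    intro a
    let q : (𝓞 K ⧸ l) × (𝓞 K ⧸ (g * k ^ 2)) :=
      (Ideal.Quotient.mk l a, Ideal.Quotient.mk (g * k ^ 2) a)
    change eps K ((lift q : K) * (x₀ * y₀)) = _
    have h1 : lift q - a ∈ l := Ideal.Quotient.eq.mp (hl1 q)
    have h2 : lift q - a ∈ g * k ^ 2 := Ideal.Quotient.eq.mp (hl2 q)
    have h3 : lift q - a ∈ fk l g k := (mem_l_mul hcop _).mpr ⟨h1, h2⟩
    have h4 : ((lift q - a : 𝓞 K) : K) = (lift q : K) - (a : K) :=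
      map_sub (algebraMap (𝓞 K) K) _ _
    have h5 : (lift q : K) * (x₀ * y₀) = (a : K) * (x₀ * y₀) +
        (((lift q - a : 𝓞 K) : K) * x₀) * y₀ := by
      rw [h4]; ring
    rw [h5, eps_add, eps_of_mem hL ((hx.iff _ _ le_rfl).mpr h3) hy.mem, mul_one]
  have hθmul : ∀ a b : 𝓞 K, (Ideal.Quotient.mk l a, Ideal.Quotient.mk (g * k ^ 2) a) *
      (Ideal.Quotient.mk l b, Ideal.Quotient.mk (g * k ^ 2) b) =
      (Ideal.Quotient.mk l (a * b), Ideal.Quotient.mk (g * k ^ 2) (a * b)) := by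
    intro a b
    rw [Prod.mk_mul_mk, map_mul, map_mul]
  have hliftq : ∀ q : (𝓞 K ⧸ l) × (𝓞 K ⧸ (g * k ^ 2)),
      (Ideal.Quotient.mk l (lift q), Ideal.Quotient.mk (g * k ^ 2) (lift q)) = q :=
    fun q => Prod.ext (hl1 q) (hl2 q)
  have hAC : AC θ := by
    refine ⟨fun q q' => ?_, fun q => eps_norm _⟩
    have h1 : q + q' = (Ideal.Quotient.mk l (lift q + lift q'),
        Ideal.Quotient.mk (g * k ^ 2) (lift q + lift q')) := by
      conv_lhs => rw [← hliftq q, ← hliftq q']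
      rw [Prod.mk_add_mk, map_add, map_add]
    rw [h1, hθ]
    have h2 : ((lift q + lift q' : 𝓞 K) : K) = (lift q : K) + (lift q' : K) :=
      map_add (algebraMap (𝓞 K) K) _ _
    rw [h2, add_mul, eps_add]
  have hgen : ∀ w : (𝓞 K ⧸ l) × (𝓞 K ⧸ (g * k ^ 2)),
      (∀ r : (𝓞 K ⧸ l) × (𝓞 K ⧸ (g * k ^ 2)), θ (r * w) = 1) → w = 0 := by
    intro w hw
    have h1 : lift w ∈ fk l g k := by
      refine gen_w hf hM hx hy (lift w) fun r => ?_
      have h2 := hw (Ideal.Quotient.mk l r, Ideal.Quotient.mk (g * k ^ 2) r)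
      conv_lhs at h2 => rw [← hliftq w]
      rw [hθmul, hθ] at h2
      exact h2
    obtain ⟨h2, h3⟩ := (mem_l_mul hcop _).mp h1
    rw [← hliftq w, Ideal.Quotient.eq_zero_iff_mem.mpr h2, Ideal.Quotient.eq_zero_iff_mem.mpr h3]
    rfl
  have hess := essential hG
  -- the coefficients at l
  let c' : 𝓞 K ⧸ l → ℂ := fun q => c ((lift (q, 0) : K) * x₀)
  have hc' : ∀ x ∈ M, c x = c' (Ideal.Quotient.mk l (α x)) := by
    intro x hxM
    have h1 := hα x hxM
    have h2 : α x - lift (Ideal.Quotient.mk l (α x), 0) ∈ l :=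
      Ideal.Quotient.eq.mp (hl1 (Ideal.Quotient.mk l (α x), 0)).symm
    have h3 : x = (lift (Ideal.Quotient.mk l (α x), 0) : K) * x₀ +
        ((((α x - lift (Ideal.Quotient.mk l (α x), 0) : 𝓞 K) : K) * x₀) +
        (x - (α x : K) * x₀)) := by
      have h4 : ((α x - lift (Ideal.Quotient.mk l (α x), 0) : 𝓞 K) : K) =
        (α x : K) - (lift (Ideal.Quotient.mk l (α x), 0) : K) :=
        map_sub (algebraMap (𝓞 K) K) _ _
      rw [h4]; ring
    conv_lhs => rw [h3]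
    refine hc2 _ (smul_mem_FI M _ hx.mem) _ (fadd K _ ?_ (mul_mono_FI hfl M h1))
    exact (hx.iff _ l hfl).mpr h2
  have hc'1 : ∀ q, ‖c' q‖ ≤ 1 := fun q => hc1 _ (smul_mem_FI M _ hx.mem)
  -- the subgroup G
  let G : Ideal (𝓞 K ⧸ (g * k ^ 2)) := g.map (Ideal.Quotient.mk (g * k ^ 2))
  have hmkG : ∀ a b : 𝓞 K, Ideal.Quotient.mk (g * k ^ 2) a - Ideal.Quotient.mk (g * k ^ 2) b ∈ G ↔
      a - b ∈ g := by
    intro a b
    rw [← map_sub]
    exact Ideal.mem_quotient_iff_mem hf1g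
  obtain ⟨XB, hXB⟩ := exists_rep (𝓞 K ⧸ (g * k ^ 2)) G
  -- the transform
  let T : 𝓞 K ⧸ l → 𝓞 K ⧸ (g * k ^ 2) → (𝓞 K ⧸ l) × (𝓞 K ⧸ (g * k ^ 2)) → ℂ := fun a b0 q =>
    ∑ a' : 𝓞 K ⧸ (g * k ^ 2), if a' - b0 ∈ G then c' a * η a' * θ ((a, a') * q) else 0
  have hTG : ∀ a b b' q, b - b' ∈ G → T a b q = T a b' q := by
    intro a b b' q h
    refine Finset.sum_congr rfl fun a' _ => ?_
    have h1 : a' - b ∈ G ↔ a' - b' ∈ G := by
      constructor
      · intro h2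
        have h3 : a' - b' = (a' - b) + (b - b') := by ring
        rw [h3]
        exact add_mem h2 h
      · intro h2
        have h3 : a' - b = (a' - b') - (b - b') := by ring
        rw [h3]
        exact sub_mem h2 h
    by_cases h2 : a' - b ∈ G
    · rw [if_pos h2, if_pos (h1.mp h2)]
    · rw [if_neg h2, if_neg fun h3 => h2 (h1.mpr h3)]
  have hfte : ∀ r ∈ M, ∀ y ∈ du K (((fk l g k : Ideal (𝓞 K)) : FI K) * M), ∀ b : 𝓞 K,
      y - (b : K) * y₀ ∈ ((fk l g k : Ideal (𝓞 K)) : FI K) *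
        du K (((fk l g k : Ideal (𝓞 K)) : FI K) * M) →
      ft K X (cr K (l * g) M (fun x => c x * cq (g * k ^ 2) η M x₀ x) r) y =
        T (Ideal.Quotient.mk l (α r)) (Ideal.Quotient.mk (g * k ^ 2) (α r))
          (Ideal.Quotient.mk l b, Ideal.Quotient.mk (g * k ^ 2) b) := by
    intro r hr y hyM b hb
    let Ψ : 𝓞 K ⧸ l → 𝓞 K ⧸ (g * k ^ 2) → ℂ := fun a' b' =>
      if a' = Ideal.Quotient.mk l (α r) ∧ b' - Ideal.Quotient.mk (g * k ^ 2) (α r) ∈ G then
        c' a' * η b' * θ ((a', b') * (Ideal.Quotient.mk l b, Ideal.Quotient.mk (g * k ^ 2) b))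
      else 0
    have hterm : ∀ x ∈ X, cr K (l * g) M (fun x => c x * cq (g * k ^ 2) η M x₀ x) r x *
        cexp (2 * Real.pi * I * ((Algebra.trace ℚ K (x * y) : ℚ) : ℂ)) =
        Ψ (Ideal.Quotient.mk l (α x)) (Ideal.Quotient.mk (g * k ^ 2) (α x)) := by
      intro x hxX
      have hxM := hX.1 x hxX
      have hax := hα x hxM
      have har := hα r hr
      have hiff := key_iff hcop hf1g hx hax har
      have hcond : x - r ∈ ((l * g : Ideal (𝓞 K)) : FI K) * M ↔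
          (Ideal.Quotient.mk l (α x) = Ideal.Quotient.mk l (α r) ∧
          Ideal.Quotient.mk (g * k ^ 2) (α x) - Ideal.Quotient.mk (g * k ^ 2) (α r) ∈ G) := by
        rw [hiff, Ideal.Quotient.eq, hmkG]
      unfold cr ci
      by_cases h : x - r ∈ ((l * g : Ideal (𝓞 K)) : FI K) * M
      · have h' := hcond.mp h
        simp only [Ψ]
        rw [if_pos h, if_pos h', one_mul, hc' x hxM,
          cq_eq (g * k ^ 2) η (gn_mono hx hff1) (α x) x (mul_mono_FI hff1 M hax), hθmul, hθ]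
        congr 1
        change eps K (x * y) = _
        have h1 : ((α x * b : 𝓞 K) : K) = (α x : K) * (b : K) :=
          map_mul (algebraMap (𝓞 K) K) _ _
        have h2 : x * y = ((α x * b : 𝓞 K) : K) * (x₀ * y₀) + (x - (α x : K) * x₀) * y +
            ((α x : K) * x₀) * (y - (b : K) * y₀) := by
          rw [h1]; ring
        have h3 : y - (b : K) * y₀ ∈ du K M := by
          rw [← mul_du hf hM]
          exact hb
        rw [h2, eps_add, eps_add, eps_of_mem hL hax hyM,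
          eps_of_mem hM (smul_mem_FI M _ hx.mem) h3, mul_one, mul_one]
      · have h' := fun h2 => h (hcond.mpr h2)
        simp only [Ψ]
        rw [if_neg h, if_neg h', zero_mul, zero_mul]
    have hbot : (g * k ^ 2).map (Ideal.Quotient.mk (g * k ^ 2)) = ⊥ := Ideal.map_quotient_self _
    have huniv : ∀ x : 𝓞 K ⧸ (g * k ^ 2), ∃! r, r ∈ (Finset.univ : Finset (𝓞 K ⧸ (g * k ^ 2))) ∧
        x - r ∈ (g * k ^ 2).map (Ideal.Quotient.mk (g * k ^ 2)) := by
      intro x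
      refine ⟨x, ⟨Finset.mem_univ _, by rw [sub_self]; exact zero_mem _⟩, ?_⟩
      rintro r ⟨-, hr⟩
      rw [hbot, Ideal.mem_bot, sub_eq_zero] at hr
      exact hr.symm
    have hΨ : ∀ a b b', b - b' ∈ (g * k ^ 2).map (Ideal.Quotient.mk (g * k ^ 2)) →
        Ψ a b = Ψ a b' := by
      intro a b b' hbb
      rw [hbot, Ideal.mem_bot, sub_eq_zero] at hbb
      rw [hbb]
    unfold ft
    rw [Finset.sum_congr rfl hterm, sum_rep hcop le_rfl hx X hX Finset.univ huniv α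
      (fun x hxM => hα x hxM) Ψ hΨ]
    rw [Finset.sum_eq_single (Ideal.Quotient.mk l (α r))]
    · refine Finset.sum_congr rfl fun b' _ => ?_
      simp only [Ψ]
      by_cases h : b' - Ideal.Quotient.mk (g * k ^ 2) (α r) ∈ G
      · rw [if_pos ⟨trivial, h⟩, if_pos h]
      · rw [if_neg fun h2 => h h2.2, if_neg h]
    · intro a' _ ha'
      refine Finset.sum_eq_zero fun b' _ => ?_
      simp only [Ψ]
      rw [if_neg fun h2 => ha' h2.1]
    · intro h
      exact absurd (Finset.mem_univ _) h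
  have hgc : Gn (l * (g * k ^ 2)) M x₀ := hx
  refine ⟨?_, ?_⟩
  · -- the sum of the coefficients
    intro r hr
    have hrM := hX₁.1 r hr
    have h0 : (0 : K) ∈ du K (((fk l g k : Ideal (𝓞 K)) : FI K) * M) :=
      ((du K (((fk l g k : Ideal (𝓞 K)) : FI K) * M) : FI K) : Submodule (𝓞 K) K).zero_mem
    have h1 : (0 : K) - ((0 : 𝓞 K) : K) * y₀ ∈ ((fk l g k : Ideal (𝓞 K)) : FI K) *
        du K (((fk l g k : Ideal (𝓞 K)) : FI K) * M) := by
      have h2 : ((0 : 𝓞 K) : K) = 0 := map_zero (algebraMap (𝓞 K) K)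
      rw [h2, zero_mul, sub_zero]
      exact ((((fk l g k : Ideal (𝓞 K)) : FI K) *
        du K (((fk l g k : Ideal (𝓞 K)) : FI K) * M) : FI K) : Submodule (𝓞 K) K).zero_mem
    rw [hfte r hrM 0 h0 0 h1]
    obtain ⟨ρ, ⟨hρ1, hρ2⟩, -⟩ := hXB (Ideal.Quotient.mk (g * k ^ 2) (α r))
    rw [hTG _ _ ρ _ hρ2]
    have hθ0 : θ 0 = 1 := hAC.zero
    have hnt : Nontrivial (𝓞 K ⧸ (g * k ^ 2)) := Ideal.Quotient.nontrivial_iff.mpr hf1t
    have hACB : AC (fun b : 𝓞 K ⧸ (g * k ^ 2) => θ (0, b)) := by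
      refine ⟨fun b b' => ?_, fun b => hAC.norm _⟩
      have h2 : ((0 : 𝓞 K ⧸ l), b + b') = ((0 : 𝓞 K ⧸ l), b) + ((0 : 𝓞 K ⧸ l), b') := by
        rw [Prod.mk_add_mk, add_zero]
      rw [h2]
      exact hAC.add _ _
    have hgenB : ∀ w : 𝓞 K ⧸ (g * k ^ 2), (∀ r : 𝓞 K ⧸ (g * k ^ 2), θ (0, r * w) = 1) →
        w = 0 := by
      intro w hw
      have h2 := hgen (0, w) fun q => by
        have h3 : q * ((0 : 𝓞 K ⧸ l), w) = (0, q.2 * w) := by
          rw [Prod.mul_def]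
          simp
        rw [h3]
        exact hw q.2
      exact congrArg Prod.snd h2
    have h5 := (hFG (𝓞 K ⧸ (g * k ^ 2)) G η (fun b => θ (0, b)) hη.mc hACB hη.prim hgenB hess
      XB XB hXB hXB).1 ρ hρ1 hnt
    change ∑ a' : 𝓞 K ⧸ (g * k ^ 2), (if a' - ρ ∈ G then
      c' (Ideal.Quotient.mk l (α r)) * η a' * θ ((Ideal.Quotient.mk l (α r), a') *
        (Ideal.Quotient.mk l 0, Ideal.Quotient.mk (g * k ^ 2) 0)) else 0) = 0
    have h6 : ∀ a' : 𝓞 K ⧸ (g * k ^ 2), (if a' - ρ ∈ G then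
      c' (Ideal.Quotient.mk l (α r)) * η a' * θ ((Ideal.Quotient.mk l (α r), a') *
        (Ideal.Quotient.mk l 0, Ideal.Quotient.mk (g * k ^ 2) 0)) else 0) =
        c' (Ideal.Quotient.mk l (α r)) * (if a' - ρ ∈ G then η a' else 0) := by
      intro a'
      have h7 : (Ideal.Quotient.mk l (α r), a') *
        (Ideal.Quotient.mk l 0, Ideal.Quotient.mk (g * k ^ 2) 0) = 0 := by
        rw [map_zero, map_zero]
        exact mul_zero _
      rw [h7, hθ0]
      split_ifs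
      · ring
      · ring
    rw [Finset.sum_congr rfl fun a' _ => h6 a', ← Finset.mul_sum, h5, mul_zero]
  · -- the inequality
    intro b hb
    obtain ⟨b', hb'⟩ := tsum_fib
      (fun y : {y : K // y ∈ du K (((fk l g k : Ideal (𝓞 K)) : FI K) * M)} =>
        ((Ideal.Quotient.mk l (β y.1) : 𝓞 K ⧸ l),
          (Ideal.Quotient.mk (g * k ^ 2) (β y.1) : 𝓞 K ⧸ (g * k ^ 2))))
      (fun y => b y.1) hb (fun _ => 0)
    have hlhs : ∀ r ∈ X₁, ‖∑' y : {y : K // y ∈ du K (((fk l g k : Ideal (𝓞 K)) : FI K) * M)},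
        ft K X (cr K (l * g) M (fun x => c x * cq (g * k ^ 2) η M x₀ x) r) y * b y‖ ^ 2 =
        ‖∑ q, T (Ideal.Quotient.mk l (α r)) (Ideal.Quotient.mk (g * k ^ 2) (α r)) q *
          b' q‖ ^ 2 := by
      intro r hr
      have hrM := hX₁.1 r hr
      rw [← hb' (fun q => T (Ideal.Quotient.mk l (α r)) (Ideal.Quotient.mk (g * k ^ 2) (α r)) q)]
      congr 2
      refine tsum_congr fun y => ?_
      rw [hfte r hrM y.1 y.2 (β y.1) (hβ y.1 y.2)]
    have hrhs : ∀ r ∈ Y, ‖∑' y : {y : K // y ∈ du K (((fk l g k : Ideal (𝓞 K)) : FI K) * M)},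
        cr K (l * g) (du K (((fk l g k : Ideal (𝓞 K)) : FI K) * M))
        (fun y => (starRingEnd ℂ) (cq (g * k ^ 2) η
          (du K (((fk l g k : Ideal (𝓞 K)) : FI K) * M)) y₀ y)) r y * b y‖ ^ 2 =
        ‖∑ y : 𝓞 K ⧸ (g * k ^ 2), (if y - Ideal.Quotient.mk (g * k ^ 2) (β r) ∈ G then
          (starRingEnd ℂ) (η y) * b' (Ideal.Quotient.mk l (β r), y) else 0)‖ ^ 2 := by
      intro r hr
      have hrM := hY.1 r hr
      let H : (𝓞 K ⧸ l) × (𝓞 K ⧸ (g * k ^ 2)) → ℂ := fun q =>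
        if q.1 = Ideal.Quotient.mk l (β r) ∧
          q.2 - Ideal.Quotient.mk (g * k ^ 2) (β r) ∈ G then (starRingEnd ℂ) (η q.2) else 0
      have hsum : ∑ q, H q * b' q = ∑ y : 𝓞 K ⧸ (g * k ^ 2),
          (if y - Ideal.Quotient.mk (g * k ^ 2) (β r) ∈ G then
          (starRingEnd ℂ) (η y) * b' (Ideal.Quotient.mk l (β r), y) else 0) := by
        rw [Fintype.sum_prod_type, Finset.sum_eq_single (Ideal.Quotient.mk l (β r))]
        · refine Finset.sum_congr rfl fun y _ => ?_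
          simp only [H]
          by_cases h : y - Ideal.Quotient.mk (g * k ^ 2) (β r) ∈ G
          · rw [if_pos ⟨trivial, h⟩, if_pos h]
          · rw [if_neg fun h2 => h h2.2, if_neg h, zero_mul]
        · intro a' _ ha'
          refine Finset.sum_eq_zero fun y _ => ?_
          simp only [H]
          rw [if_neg fun h2 => ha' h2.1, zero_mul]
        · intro h
          exact absurd (Finset.mem_univ _) h
      rw [← hsum, ← hb' H]
      congr 2
      refine tsum_congr fun y => ?_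
      congr 1
      have hyb := hβ y.1 y.2
      have hrb := hβ r hrM
      have hiff := key_iff hcop hf1g hy hyb hrb
      have hcond : y.1 - r ∈ ((l * g : Ideal (𝓞 K)) : FI K) *
          du K (((fk l g k : Ideal (𝓞 K)) : FI K) * M) ↔
          (Ideal.Quotient.mk l (β y.1) = Ideal.Quotient.mk l (β r) ∧
          Ideal.Quotient.mk (g * k ^ 2) (β y.1) - Ideal.Quotient.mk (g * k ^ 2) (β r) ∈ G) := by
        rw [hiff, Ideal.Quotient.eq, hmkG]
      unfold cr ci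
      simp only [H]
      by_cases h : y.1 - r ∈ ((l * g : Ideal (𝓞 K)) : FI K) *
          du K (((fk l g k : Ideal (𝓞 K)) : FI K) * M)
      · rw [if_pos h, if_pos (hcond.mp h), one_mul,
          cq_eq (g * k ^ 2) η (gn_mono hy hff1) (β y.1) y.1 (mul_mono_FI hff1 _ hyb)]
      · rw [if_neg h, if_neg fun h2 => h (hcond.mpr h2), zero_mul]
    rw [Finset.sum_congr rfl hlhs, Finset.sum_congr rfl hrhs]
    have s1 := sum_rep hcop hf1g hx X₁ hX₁ XB hXB α (fun x hxM => hα x hxM)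
      (fun a b0 => ‖∑ q, T a b0 q * b' q‖ ^ 2) (fun a b1 b2 hbb => by
        have h1 : ∀ q, T a b1 q = T a b2 q := fun q => hTG a b1 b2 q hbb
        simp only [h1])
    have s2 := sum_rep hcop hf1g hy Y hY XB hXB β (fun x hxM => hβ x hxM)
      (fun a b0 => ‖∑ y : 𝓞 K ⧸ (g * k ^ 2), (if y - b0 ∈ G then
          (starRingEnd ℂ) (η y) * b' (a, y) else 0)‖ ^ 2) (fun a b1 b2 hbb => by
        have h1 : ∀ y : 𝓞 K ⧸ (g * k ^ 2), y - b1 ∈ G ↔ y - b2 ∈ G := by
          intro y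
          constructor
          · intro h2
            have h3 : y - b2 = (y - b1) + (b1 - b2) := by ring
            rw [h3]
            exact add_mem h2 hbb
          · intro h2
            have h3 : y - b1 = (y - b2) - (b1 - b2) := by ring
            rw [h3]
            exact sub_mem h2 hbb
        simp only [h1])

    rw [s1, s2]
    have h8 := hFP (𝓞 K ⧸ l) (𝓞 K ⧸ (g * k ^ 2)) G c' η θ hc'1 hη.mc hAC hη.prim hgen hess
      XB XB hXB hXB b'
    rw [card_prod] at h8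
    exact h8

end Pool.Agent.H26.THC
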